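import Pool.Agent.helper7.DF.Spec2
import Pool.Agent.helper85.BVP.Var

/-!
# Row MSP of project DF: the large sieve inequality of one prime with few classes
-/

set_option autoImplicit false

open Finset

namespace Pool.Agent.DFO

open Pool.Agent.helper85.BVP (ex)

/-- Parseval modulo `q` for complex coefficients. -/
lemma MSP_parseval (S : Finset ℕ) (c : ℕ → ℂ) (q : ℕ) (hq : 0 < q) :
    ∑ r ∈ range q, ‖∑ n ∈ S, c n * ex ((n : ℝ) * ((r : ℝ) / q))‖ ^ 2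
      = q * ∑ h ∈ range q, ‖∑ n ∈ S with n % q = h, c n‖ ^ 2 := by
  have h1 : ((∑ r ∈ range q, ‖∑ n ∈ S, c n * ex ((n : ℝ) * ((r : ℝ) / q))‖ ^ 2 : ℝ) : ℂ)
      = ∑ n ∈ S, ∑ m ∈ S, c n * (starRingEnd ℂ) (c m)
          * ∑ r ∈ range q, ex (r * (((n - m : ℤ) : ℝ) / q)) := by
    push_cast
    have h2 : ∀ r ∈ range q, ((‖∑ n ∈ S, c n * ex ((n : ℝ) * ((r : ℝ) / q))‖ : ℂ)) ^ 2
        = ∑ n ∈ S, ∑ m ∈ S, c n * (starRingEnd ℂ) (c m) * ex (r * (((n - m : ℤ) : ℝ) / q)) := by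
      intro r _
      rw [← Complex.ofReal_pow, ← Complex.normSq_eq_norm_sq, ← Complex.mul_conj, map_sum,
        sum_mul_sum]
      refine sum_congr rfl fun n _ => sum_congr rfl fun m _ => ?_
      have e : (r : ℝ) * (((n - m : ℤ) : ℝ) / q) = (n : ℝ) * ((r : ℝ) / q) - m * ((r : ℝ) / q) := by
        push_cast
        ring
      rw [e, Pool.Agent.helper85.BVP.ex_sub, map_mul]
      ring
    rw [sum_congr rfl h2, sum_comm]
    refine sum_congr rfl fun n _ => ?_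
    rw [sum_comm]
    refine sum_congr rfl fun m _ => ?_
    rw [mul_sum]
    push_cast
    rfl
  have h3 : ∀ n ∈ S, ∀ m ∈ S, c n * (starRingEnd ℂ) (c m)
        * ∑ r ∈ range q, ex (r * (((n - m : ℤ) : ℝ) / q))
      = (q : ℂ) * (if m % q = n % q then c n * (starRingEnd ℂ) (c m) else 0) := by
    intro n _ m _
    rw [Pool.Agent.helper85.BVP.orth q hq]
    have h4 : ((q : ℤ) ∣ ((n : ℤ) - m)) ↔ m % q = n % q := by
      rw [← Nat.modEq_iff_dvd]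
      rfl
    by_cases h : m % q = n % q
    · rw [if_pos (h4.mpr h), if_pos h]
      ring
    · rw [if_neg (fun h' => h (h4.mp h')), if_neg h]
      ring
  have h5 : (((q : ℝ) * ∑ h ∈ range q, ‖∑ n ∈ S with n % q = h, c n‖ ^ 2 : ℝ) : ℂ)
      = ∑ n ∈ S, ∑ m ∈ S, ((q : ℂ) * (if m % q = n % q then c n * (starRingEnd ℂ) (c m) else 0)) := by
    push_cast
    simp_rw [← mul_sum]
    congr 1
    rw [← sum_fiberwise_of_maps_to (s := S) (t := range q) (g := fun n => n % q)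
      (fun n _ => mem_range.mpr (Nat.mod_lt n hq))]
    refine sum_congr rfl fun h _ => ?_
    rw [← Complex.ofReal_pow, ← Complex.normSq_eq_norm_sq, ← Complex.mul_conj, map_sum, sum_mul_sum]
    refine sum_congr rfl fun n hn => ?_
    rw [sum_filter]
    refine sum_congr rfl fun m _ => ?_
    rw [(mem_filter.mp hn).2]
  have h6 : ((∑ r ∈ range q, ‖∑ n ∈ S, c n * ex ((n : ℝ) * ((r : ℝ) / q))‖ ^ 2 : ℝ) : ℂ)
      = (((q : ℝ) * ∑ h ∈ range q, ‖∑ n ∈ S with n % q = h, c n‖ ^ 2 : ℝ) : ℂ) := by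
    rw [h1, h5]
    exact sum_congr rfl fun n hn => sum_congr rfl fun m hm => h3 n hn m hm
  exact_mod_cast h6

/-- The shifted sum in terms of the coefficients `ex (nα)`. -/
lemma MSP_shift (E : Finset ℕ) (p : ℕ) (α : ℝ) (a : ℕ) :
    SE E (α + (a : ℝ) / p) = ∑ n ∈ E, ex ((n : ℝ) * α) * ex ((n : ℝ) * ((a : ℝ) / p)) := by
  unfold SE
  refine sum_congr rfl fun n _ => ?_
  rw [mul_add, Pool.Agent.helper85.BVP.ex_add]

/-- Cauchy–Schwarz over the classes met by `E`. -/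
lemma MSP_cs (E : Finset ℕ) (p : ℕ) (hp : 0 < p) (c : ℕ → ℂ) :
    ‖∑ n ∈ E, c n‖ ^ 2 ≤ (#(E.image (fun n => n % p)) : ℝ)
      * ∑ h ∈ range p, ‖∑ n ∈ E with n % p = h, c n‖ ^ 2 := by
  have h1 : ∑ n ∈ E, c n = ∑ h ∈ E.image (fun n => n % p), ∑ n ∈ E with n % p = h, c n :=
    (sum_fiberwise_of_maps_to (fun n hn => mem_image_of_mem _ hn) _).symm
  have h2 : ‖∑ n ∈ E, c n‖ ≤ ∑ h ∈ E.image (fun n => n % p), ‖∑ n ∈ E with n % p = h, c n‖ := by
    rw [h1]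
    exact norm_sum_le _ _
  have h3 : ‖∑ n ∈ E, c n‖ ^ 2
      ≤ (∑ h ∈ E.image (fun n => n % p), ‖∑ n ∈ E with n % p = h, c n‖) ^ 2 :=
    pow_le_pow_left₀ (norm_nonneg _) h2 2
  have h4 := sq_sum_le_card_mul_sum_sq (s := E.image (fun n => n % p))
    (f := fun h => ‖∑ n ∈ E with n % p = h, c n‖)
  have h5 : ∑ h ∈ E.image (fun n => n % p), ‖∑ n ∈ E with n % p = h, c n‖ ^ 2
      ≤ ∑ h ∈ range p, ‖∑ n ∈ E with n % p = h, c n‖ ^ 2 := by
    refine sum_le_sum_of_subset_of_nonneg ?_ fun _ _ _ => by positivity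
    intro h hh
    obtain ⟨n, _, rfl⟩ := mem_image.mp hh
    exact mem_range.mpr (Nat.mod_lt n hp)
  refine h3.trans (h4.trans ?_)
  exact mul_le_mul_of_nonneg_left h5 (Nat.cast_nonneg _)

theorem MSP : MSP_stmt := by
  intro p E hp hν α
  have hp0 : 0 < p := hp.pos
  have hpar := MSP_parseval E (fun n => ex ((n : ℝ) * α)) p hp0
  have hcs := MSP_cs E p hp0 (fun n => ex ((n : ℝ) * α))
  set ν : ℕ := #(E.image (fun n => n % p)) with hνdef
  set W : ℝ := ∑ h ∈ range p, ‖∑ n ∈ E with n % p = h, ex ((n : ℝ) * α)‖ ^ 2 with hW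
  have hS : ∑ n ∈ E, ex ((n : ℝ) * α) = SE E α := rfl
  rw [hS] at hcs
  have hsum : ∑ r ∈ range p, ‖∑ n ∈ E, ex ((n : ℝ) * α) * ex ((n : ℝ) * ((r : ℝ) / p))‖ ^ 2
      = ‖SE E α‖ ^ 2 + ∑ a ∈ Ioo 0 p, ‖SE E (α + (a : ℝ) / p)‖ ^ 2 := by
    have e1 : ∀ r ∈ range p, ‖∑ n ∈ E, ex ((n : ℝ) * α) * ex ((n : ℝ) * ((r : ℝ) / p))‖ ^ 2
        = ‖SE E (α + (r : ℝ) / p)‖ ^ 2 := by
      intro r _
      rw [MSP_shift]
    rw [sum_congr rfl e1]
    have e2 : range p = insert 0 (Ioo 0 p) := by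
      ext x
      simp only [mem_range, mem_insert, mem_Ioo]
      omega
    rw [e2, sum_insert (by simp)]
    simp
  rw [hsum] at hpar
  set A : ℝ := ‖SE E α‖ ^ 2 with hA
  set B : ℝ := ∑ a ∈ Ioo 0 p, ‖SE E (α + (a : ℝ) / p)‖ ^ 2 with hB
  have hA0 : 0 ≤ A := by positivity
  have hB0 : 0 ≤ B := sum_nonneg fun _ _ => by positivity
  have hW0 : 0 ≤ W := sum_nonneg fun _ _ => by positivity
  have hpr : (0 : ℝ) < p := by exact_mod_cast hp0
  have hνr : 3 * (ν : ℝ) ≤ 2 * p := by exact_mod_cast hν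
  have hν0 : (0 : ℝ) ≤ ν := Nat.cast_nonneg _
  -- `p A ≤ ν (A + B)`
  have h1 : (p : ℝ) * A ≤ ν * (A + B) := by
    calc (p : ℝ) * A ≤ p * (ν * W) := mul_le_mul_of_nonneg_left hcs hpr.le
      _ = ν * (p * W) := by ring
      _ = ν * (A + B) := by rw [← hpar]
  have h2 : 3 * ((p : ℝ) * A) ≤ 2 * p * (A + B) := by
    have h3 : 3 * (ν : ℝ) * (A + B) ≤ 2 * p * (A + B) :=
      mul_le_mul_of_nonneg_right hνr (by linarith)
    nlinarith [h1, h3]
  have h4 : (p : ℝ) * A ≤ p * (2 * B) := by nlinarith [h2]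
  exact le_of_mul_le_mul_left h4 hpr

end Pool.Agent.DFO
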